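import Pool.Agent.Helper36.VC.St

/-!
# Project VC, module CAR: at most `κ` ordinals with a value in a small set
-/

set_option autoImplicit false

open Cardinal Ordinal Set Filter
open Pool.Agent.Helper65.GS Pool.Agent.Helper36.VC

universe u

namespace Pool.Agent.Helper90.VC

theorem pCAR (hENU : StENU.{u}) : StCAR.{u} := by
  intro X κ W A t l f hS B hB E
  obtain ⟨d, hd⟩ := hENU κ {b | b < l ∧ Pos W {x ∈ B | ∃ e < f κ.ord x, f b x = E x e}}
    (fun e => {b ∈ Iio l | Pos W {x ∈ B | f b x = E x e}}) hS.unc.le
    (fun e _ => countable_of_ae_ne (B := B) hS.sat (Iio l) f (fun a ha b hb hab => by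
      rcases lt_or_gt_of_ne hab with h1 | h1
      · filter_upwards [hS.rep.inc a b h1 hb] with x hx hxB
        exact (hx (hB hxB)).ne
      · filter_upwards [hS.rep.inc b a h1 ha] with x hx hxB
        exact (hx (hB hxB)).ne') (fun x => E x e))
    (by
      rintro b ⟨hb, hp⟩
      classical
      set g : X → Ordinal.{u} := fun x =>
        if h : ∃ e < f κ.ord x, f b x = E x e then h.choose else 0 with hg
      have hgs : ∀ x, (∃ e < f κ.ord x, f b x = E x e) → g x < f κ.ord x ∧ f b x = E x (g x) := by
        intro x hx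
        have e1 : g x = hx.choose := by
          rw [hg]
          simp only
          rw [dif_pos hx]
        rw [e1]
        exact hx.choose_spec
      obtain ⟨a, ha, hpos⟩ := hS.loc (fun x hx => hB hx.1) hp (fun x hx => (hgs x hx.2).1)
      refine ⟨a, ha, hb, hpos.mono ?_⟩
      intro x hx
      refine ⟨hx.1.1, ?_⟩
      have h2 := (hgs x hx.1.2).2
      rwa [hx.2] at h2)
  exact ⟨d, fun b hb hp => hd b ⟨hb, hp⟩⟩

end Pool.Agent.Helper90.VC
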